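import Pool.Agent.Lib.MP_16d934_gt.X.Main

/-! The closed embedded minimal surfaces of genus `γ` in the three-sphere with type-0 symmetry are
exactly the surfaces congruent to the Lawson surface. -/

set_option autoImplicit false

namespace Pool.Agent.Results.MP_16d934_gt.Classification

open Pool.Agent.Lib.MP_16d934_gt.Spec

theorem result (γ : ℕ) (hγ : 1 ≤ γ) :
    (∃! M, LawsonDisc γ M) ∧ ∀ M, LawsonDisc γ M → ∀ S : Set E4,
      ((ClosedMin γ S ∧ ∃ τ ρ : E4 → E4, Type0 S τ ρ) ↔ Congruent {x | Orbit γ M x} S) :=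
  Pool.Agent.Lib.MP_16d934_gt.X.main_iff γ hγ

end Pool.Agent.Results.MP_16d934_gt.Classification
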